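import Pool.Agent.H896.GN.Cov

/-!
# Generalised abundance on isometry quotients of `ℂ^n × P^{r_1} × ... × P^{r_c}` and on their coverings

Let `V = ℂ^n`, `F = P^{r_1} × ... × P^{r_c}`, and let `Γ` be any group of holomorphic isometries of `V × F`
which acts properly discontinuously with a compact quotient `X = (V × F) / Γ`, projective or not. For
instance `X` is a fibre product over an abelian variety, or a complex torus, of projectively flat unitary
projective bundles, which need not come from direct sums of line bundles (arbitrary projectively unitary
representations of the lattice), or a quotient of such a variety by a finite group which may permute the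
factors, have fixed points and contain reflections. Let `D_i` be effective Cartier divisors on `X`,
`B = ∑ d_i D_i` with real `d_i > 0`, and let `(X, B)` be klt with `K_X + B` pseudo-effective.

* If the line bundle `L` on `X` is nef, and `t L - (K_X + B)` is nef for some real `t > 0`, then `L` is
  numerically semiample: `L ^ M ⊗ P` is semiample for some `M ≥ 1` and a flat line bundle `P`. Only the
  part of `t L - (K_X + B)` along `V` has to be nef. If `H^1 (X, ℝ) = 0` then `L` itself is semiample.
* The same holds on the coverings `Y` of `X` with `K_Y = π^* (K_X + B)`: here `Y` is a fibre product of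
  cyclic coverings of orders `q_i` branched along the `D_i`, `B = ∑ (1 - 1 / q_i) D_i`. If `Γ` acts without
  fixed points and the `D_i` are smooth and cross normally then `Y` is a compact Kähler manifold, projective if
  `X` is. So for these manifolds `Y`: if `K_Y` is pseudo-effective, and `L ^ m ⊗ K_Y^*` is nef, where `L` is
  the pullback of a line bundle on `X` (that is, up to powers, a line bundle which is invariant under the
  Galois group), then `L` is numerically semiample. Here `K_Y` need not be torsion, `L` and
  `L ^ m ⊗ K_Y^*` need not be big, and `L` need not be proportional to `K_Y`.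

On these `X` nef line bundles need not be numerically semiample: for `X = P (O ⊕ P_0)` over an elliptic
curve, `P_0` not torsion of degree `0`, the nef line bundle `O (1)`, and all `O (M) ⊗ P`, `P` of degree
`0`, have at most one section. Here `K_X = - 2 O (1) + ...`, and with `B = Z_0 + Z_1` (the two disjoint
sections) the pair is lc with `K_X + B = 0`; so neither `K_X + B` pseudo-effective nor klt can be omitted.

Proof. `K_X + B` is nef (`IR/Real.lean`). Let `A` be an integral multiple of a nef class `K_X + B'` in the
smallest face containing `K_X + B` (`GN/Adj.lean`). The kernel of the Chern form of `L` is contained in the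
one of `A`. The translations of `V` in a neighbourhood of this kernel act on the coordinates of `F` by
characters, and the rigidity of klt pairs with nonnegative degrees (no one-parameter group of
automorphisms of `F` preserves the ramification and the boundary, `IR/Scale.lean`, `IR/Iso.lean`) shows
that for translations in the kernel `U` of the form of `L` these characters are roots of unity, although
`A` may be positive on other vectors and need not be a multiple of `L` (`GN/Pure.lean`). What remains is
the character of `L` on the pure translations in `U`. It is invariant under the finite group of the linear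
parts, and after a power it extends to an invariant real linear form on `V`, which gives the flat line
bundle `P` (`GN/Inv.lean`).

The definitions are in `Pool.Agent.H896.GN.Stmt`, `Pool.Agent.H896.IR.Stmt` and `Pool.Agent.H896.IQ.Stmt`,
and `Co`, `IsPt`, `mulBy`, `Trans`, `onV`, `onZ`, `jac`, `same`, `lin`, `IsHomog` and `IsEffective` in
`Pool.Agent.T2H08.FQ.Stmt` of the library; `IsHermitian` is defined in `Pool.Agent.W594.SYZ.Defs2` and
`IsNefForm` in `Pool.Agent.W594.SYZ.TQDefs`.
-/

set_option autoImplicit false

namespace Pool.Agent.Results.MP_1149f4_ag.IsometryQuotientCovers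

open Pool.Agent.T2H08.FB (Co Trans)
open Pool.Agent.H896.IG

/-- Let `X = (V × F) / Γ` be a compact quotient of `V × F`, `V = ℂ^n`, `F = P^{r 0} × ... × P^{r (c - 1)}`, by
a discrete group of holomorphic isometries, let the entire function `ρ` on `V` and the polynomial `σ`
define the ramification divisor of `V × F → X`, let `K = O_X (m K_X)`, `m ≥ 1`, and let the `D i`, given by
the sections `β i`, be effective Cartier divisors, `L` a line bundle with the Chern form `H`.

(1) Let `(X, B)`, `B = ∑ d i D_i`, `d i > 0`, be klt, with `K_X + B` pseudo-effective. If `L` is nef and,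
for some real `t`, the form of `t L - (K_X + B)` is positive semidefinite (as is the case if
`t L - (K_X + B)` is nef), then `L` is numerically semiample, and it is semiample if `H^1 (X, ℝ) = 0`.

(2) Let `Y` be the fibre product of the cyclic coverings of `X` of orders `q i ≥ 2` branched along the
`D_i`, given by line bundles `R i` with `(R i) ^ (q i) = D i`, so that `K_Y` is the pullback of
`K_X + ∑ (1 - 1 / q i) D_i`, and let this pair be klt (that is, let `Y` be klt). If `K_Y` is
pseudo-effective and `t L - K_Y` is nef on `Y` for some real `t > 0`, then the pullback of `L` to `Y` is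
numerically semiample. -/
theorem result {n c : ℕ} {r : Fin c → ℕ} (Γ : Subgroup (Trans n r)) (hΓ : IsIsometryGroup Γ)
    (ρ : (Fin n → ℂ) → ℂ) (σ : MvPolynomial (Co r) ℂ) (l : Fin c → ℕ)
    (hρ : IsRamification Γ ρ σ l) (m : ℕ) (hm : 1 ≤ m) (K : LineBundle Γ)
    (hK : IsLogPluricanonical K m ρ σ l (fun _ => 1) (fun _ => 0))
    (HK : (Fin n → ℂ) → (Fin n → ℂ) → ℂ) (hHK : K.IsChernForm HK) {N : ℕ}
    (D : Fin N → LineBundle Γ) (β : Fin N → (Fin n → ℂ) → MvPolynomial (Co r) ℂ)
    (κ : Fin N → Fin c → ℕ) (hβ : ∀ i, IsCartier (D i) (β i) (κ i))
    (HD : Fin N → (Fin n → ℂ) → (Fin n → ℂ) → ℂ) (hHD : ∀ i, (D i).IsChernForm (HD i))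
    (L : LineBundle Γ) (H : (Fin n → ℂ) → (Fin n → ℂ) → ℂ) (hH : L.IsChernForm H) :
    (∀ d : Fin N → ℝ, (∀ i, 0 < d i) → IsKltReal ρ σ d β →
      IsPseudoEffectiveClass Γ (realClass K HK D HD (1 / m) d) → L.IsNef H →
      (∃ t : ℝ, Pool.Agent.W594.SYZ2.IsNefForm fun v w =>
        t * H v w - (realClass K HK D HD (1 / m) d).1 v w) →
      L.IsNumSemiample ∧ (NoOneForms Γ → L.IsSemiample)) ∧
    ∀ (q : Fin N → ℕ) (R : Fin N → LineBundle Γ), (∀ i, 2 ≤ q i) →
      (∀ i, IsRoot (R i) (q i) (D i)) → IsKltReal ρ σ (fun i => 1 - 1 / (q i : ℝ)) β →
      IsCoverPseudoEffectiveClass R q β (realClass K HK D HD (1 / m) fun i => 1 - 1 / (q i : ℝ)) →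
      (∃ t : ℝ, 0 < t ∧ IsNefClass (fun v w => t * H v w -
          (realClass K HK D HD (1 / m) fun i => 1 - 1 / (q i : ℝ)).1 v w,
        fun j => t * L.deg j -
          (realClass K HK D HD (1 / m) fun i => 1 - 1 / (q i : ℝ)).2 j)) →
      L.IsCoverNumSemiample R q β := by
  refine ⟨fun d hd hklt hps hL ht => ?_, fun q R hq hR hklt hps ht => ?_⟩
  · obtain ⟨t, ht⟩ := ht
    exact num_semiample hΓ hρ hm hK hHK hβ hHD hd hklt (nef_of_pseff hΓ hps) hH hL ht
  · obtain ⟨t, ht0, ht⟩ := ht
    exact cover_semiample hΓ hρ hm hK hHK hβ hHD hR hq hklt hps hH ht0 ht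

end Pool.Agent.Results.MP_1149f4_ag.IsometryQuotientCovers
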